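import Pool.Agent.H44.V0P.Vda

/-!
# The jets of the slope-one places over the charts of an earlier window

`dn_one`: one step down. `dn_jet`: positions and velocities over the charts of `b` from those over the
charts of `w`, the record at `ow ≥ w`. `dn_ev`: the same on one event.
-/

set_option autoImplicit false

namespace Pool.NA76

open Finset Real MvPolynomial
open Pool.Agent.H49.Ent Pool.Agent.H32.Dense Pool.STK Pool.KA Pool.KSAT Pool.K2S Pool.PB Pool.GEN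
open Pool.S6C Pool.RCD Pool.LA91 Pool.AVG96 Pool.V0F Pool.TW44
open Pool.OWN68 (few_iff)
open Pool.AVG57 (jet2)
open Pool.GRD (LbP)
open Pool.AJW (CfB)

section rel

variable {m : ℕ} {S : PCl m} {c : ℕ → Fin m} {r : ℕ} {sn : ℕ → ℝ → ℝ} {G : Set ℝ} {b o φ : ℝ}

variable {α γ : ∀ J : ℕ, Fam m J → Type}
  {f : ∀ (J : ℕ) (F : Fam m J), F.Ω → α J F} {y : ∀ (J : ℕ) (F : Fam m J), F.Ω → γ J F}

/-- **One step** to an earlier window. -/
theorem dn_one (L : Lad S c r sn G b o φ)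
    (hf : ∀ (J : ℕ) (F : Fam m J), ∃ χ : α J F → PtT F, ∀ ω, ptr F J ω = χ (f J F ω))
    (hy : Kn ((range 0).image c) 1 1 y) {w : ℝ} {n : ℕ → ℝ} (hw : w ∈ G) (hwo : w ≤ o)
    (hn : Nst r sn w φ n) {v v' : ℝ} (hv : v ∈ G) (hv' : v' ∈ G) (hbv : b ≤ v) (hvv : v ≤ v')
    (hv3 : v' ≤ v + 3 * φ) (hvw : v' ≤ w) {p p' : ℕ → ℝ} (hp : ∀ i < r, sn i v' - φ ≤ p i)
    (hp' : ∀ i < r, sn i v - φ ≤ p' i)
    {Nf : ℕ → ℕ → ℝ} (hNf : ∀ i < r, ∀ j : ℕ, j ≤ 1 → n i - (j : ℝ) * w ≤ Nf i j) {i : ℕ}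
    (hi : i < r) {j : ℕ} (hj : j ≤ 1) :
    Few S f (vg v') y (qJets m c 0 r 1 (fun _ _ => v') (fun l _ => p l) Nf)
      (qJet m ((range i).image c) (c i) j v (p' i) (n i - (j : ℝ) * w)) := by
  obtain ⟨C₀, htm⟩ := L.tm
  obtain ⟨u₁, rd, hrd, hch⟩ := L.ch.ch v' hv'
  have hφ := L.φ0
  have hv1 : v' < 1 := hch.u0
  have hv0 : 0 ≤ v' := hch.w0
  have hmin : min (1 : ℝ) (1 - v') = 1 - v' := min_eq_right (by linarith)
  -- the levels
  have d1 : ∀ i < r, sn i v' - 5 * φ ≤ sn i v := fun i hi => by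
    have k1 := L.dif hi hv hv' hbv (by linarith) (by linarith) (by linarith)
    linarith
  have d2 : ∀ i < r, sn i w - sn i v' ≤ w - v' + 2 * φ := fun i hi =>
    L.dif hi hv' hw (by linarith) (by linarith) (by linarith) hwo
  have d3 : ∀ i < r, w - v' - 2 * φ ≤ sn i w - sn i v' := fun i hi => by
    have := L.dif hi hw hv' (by linarith) hwo (by linarith) (by linarith)
    linarith
  have e2 := d2 i hi
  have e3 := d3 i hi
  have e4 := hn.hi i hi
  have hmv : ∀ l < r, sn l v' - φ ≤ min (p l) (sn l v') := fun l hl =>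
    le_min (hp l hl) (by linarith)
  have hmn : sn i v' - 6 * φ ≤ min (p i) (p' i) :=
    le_min (by linarith [hp i hi]) (by linarith [hp' i hi, d1 i hi])
  obtain ⟨X, hX⟩ : ∃ X : ℝ, X = (j : ℝ) * (w - v') := ⟨_, rfl⟩
  have hj0 : (0 : ℝ) ≤ j := Nat.cast_nonneg _
  have hj1 : (j : ℝ) ≤ 1 := by exact_mod_cast hj
  have hX0 : 0 ≤ X := by
    rw [hX]
    exact mul_nonneg hj0 (by linarith)
  have hX1 : X ≤ w - v' := by
    rw [hX]
    have := mul_le_mul_of_nonneg_right hj1 (by linarith : (0 : ℝ) ≤ w - v')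
    linarith
  have eX : n i - (j : ℝ) * w + (j : ℝ) * v' = n i - X := by rw [hX]; ring
  obtain ⟨lv, hlv⟩ : ∃ lv : ℕ → ℝ, lv = fun l => n l - X - sn l v' - 2 * φ := ⟨_, rfl⟩
  have key := few_jetN (f := f) (y := y) htm (hch.take (Nat.zero_le i) hi.le) (k := c i)
    (j := j) (wv := fun _ _ => v') (pv := fun l _ => p l)
    (Nv := Nf)
    (lv := lv) (w₁ := v') (w₂ := v) (p₁ := p i) (p₂ := p' i)
    (N₁ := Nf i j) (N₂ := n i - (j : ℝ) * w) (p₀ := 1) (lam := 1) (σ₀ := φ)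
    (fun _ _ _ _ _ => le_rfl) le_rfl hvv hv1 le_rfl one_pos hφ (by
      intro l _ hl
      have k1 := hn.lo l (by omega)
      have k2 := d3 l (by omega)
      rw [hlv]
      show 0 < n l - X - sn l v' - 2 * φ
      linarith) (by
      intro l _ hl j'' hj''
      rw [hlv]
      show sn l v' + (n l - X - sn l v' - 2 * φ) + φ ≤ Nf l j'' + (j'' : ℝ) * v'
      have k1 : (j'' : ℝ) ≤ j := by exact_mod_cast hj''
      have k2 := hNf l (by omega) j'' (by omega)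
      have k3 : (j'' : ℝ) * (w - v') ≤ j * (w - v') :=
        mul_le_mul_of_nonneg_right k1 (by linarith)
      have k4 : (j'' : ℝ) * (w - v') = j'' * w - j'' * v' := by ring
      rw [← hX] at k3
      linarith) (by
      intro l _ hl j'' hj''
      have k1 := hn.hi l (by omega)
      have k3 := d2 l (by omega)
      have k4 := hmv l (by omega)
      rw [hlv, hmin]
      show sn l v' + (n l - X - sn l v' - 2 * φ) + φ ≤
        min (p l) (sn l v') + (1 - v')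
      linarith) (by
      intro l _ hl j'' hj'' l' _ hl'
      have k1 := hn.ne l (by omega) l' hl'
      have k3 := d3 l (by omega)
      have k5 := d2 l' (by omega)
      have k6 := d2 l (by omega)
      have k7 := d3 l' (by omega)
      have k4 := hmv l (by omega)
      rw [hlv]
      show sn l v' + (n l - X - sn l v' - 2 * φ) + φ ≤
        min (p l) (sn l v') + (n l' - X - sn l' v' - 2 * φ)
      linarith) (hNf i hi j hj) (by
      rw [hmin, eX]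
      linarith) (by
      intro l _ hl
      have k1 := hn.ne i hi l hl
      have k3 := d3 l (by omega)
      have k5 := d2 l (by omega)
      rw [hlv, eX]
      show n i - X + φ ≤ min (p i) (p' i) + (n l - X - sn l v' - 2 * φ)
      linarith) hf hy
  refine Few.pre L.pos (fun u : ℕ → ℕ → ℤ => ((fun l j'' => if 0 ≤ l ∧ l < i ∧ j'' ≤ j then
    u l j'' else 0), u i j)) ?_ key
  intro K e J F A u hu
  exact ⟨qJets_take hi.le hj hu, hu.1 i (Nat.zero_le _) hi j hj⟩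

/-- **Positions and velocities over the charts of any window of `G`** before `w`. -/
theorem dn_all (L : Lad S c r sn G b o φ)
    (hf : ∀ (J : ℕ) (F : Fam m J), ∃ χ : α J F → PtT F, ∀ ω, ptr F J ω = χ (f J F ω))
    (hy : Kn ((range 0).image c) 1 1 y) {w : ℝ} {n p : ℕ → ℝ} (hw : w ∈ G) (hbw : b ≤ w)
    (hwo : w ≤ o) (hn : Nst r sn w φ n) (hp : ∀ i < r, sn i w - φ ≤ p i) {Nf : ℕ → ℕ → ℝ}
    (hNf : ∀ i < r, ∀ j : ℕ, j ≤ 1 → n i - (j : ℝ) * w ≤ Nf i j) (k : ℕ) :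
    ∀ v ∈ G, b ≤ v → v ≤ w → w - v ≤ k * φ →
    Few S f (vg w) y (jetQ m c 0 r w p Nf) (qJets m c 0 r 1 (fun _ _ => v) (fun l _ => sn l v)
      (fun l j => n l - (j : ℝ) * w)) := by
  have hφ := L.φ0
  have hw1 : w ≤ 1 := by linarith [L.o1]
  have hxs : ∀ x ∈ G, Exs S (qJets m c 0 r 1 (fun _ _ => x) (fun l _ => sn l x)
      (fun l j' => n l - (j' : ℝ) * w)) := fun x hx => by
    obtain ⟨u₁, rd, hrd, hch⟩ := L.ch.ch x hx
    exact exs_qjets fun l l0 l1 j' _ => exs_jet (hrd l l1) (hch.att l l0 l1)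
  have hbase : Few S f (vg w) y (jetQ m c 0 r w p Nf) (qJets m c 0 r 1 (fun _ _ => w)
      (fun l _ => sn l w) (fun l j => n l - (j : ℝ) * w)) :=
    few_qjets L.pos fun i _ hi j hj => dn_one L hf hy hw hwo hn hw hw hbw le_rfl (by linarith)
      le_rfl hp (p' := fun l => sn l w) (fun i _ => by linarith) hNf hi hj
  have hstep : ∀ x ∈ G, ∀ v ∈ G, b ≤ v → v ≤ x → x ≤ v + 3 * φ → x ≤ w →
      Few S f (vg w) y (jetQ m c 0 r w p Nf) (qJets m c 0 r 1 (fun _ _ => x) (fun l _ => sn l x)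
        (fun l j => n l - (j : ℝ) * w)) →
      Few S f (vg w) y (jetQ m c 0 r w p Nf) (qJets m c 0 r 1 (fun _ _ => v) (fun l _ => sn l v)
        (fun l j => n l - (j : ℝ) * w)) := by
    intro x hx v hv hbv hvx hx3 hxw h5
    refine Few.trans L.pos (hxs x hx) h5 ?_
    refine Few.up (f' := f) (y' := y) L.pos (fun J F => ⟨fun x => x, fun _ => rfl⟩)
      (fun J F => vg_mono hxw hw1 J F) (fun J F => ⟨fun x => x, fun _ => rfl⟩) ?_
    exact few_qjets L.pos fun i _ hi j hj => dn_one L hf hy hw hwo hn hv hx hbv hvx hx3 hxw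
      (p := fun l => sn l x) (p' := fun l => sn l v) (fun i _ => by linarith)
      (fun i _ => by linarith) (fun _ _ _ _ => le_rfl) hi hj
  induction k with
  | zero =>
    intro v hv hbv hvw h1
    rw [Nat.cast_zero, zero_mul] at h1
    exact hstep w hw v hv hbv hvw (by linarith) le_rfl hbase
  | succ k ih =>
    intro v hv hbv hvw h1
    rcases le_or_gt (w - v) (3 * φ) with h2 | h2
    · exact hstep w hw v hv hbv hvw (by linarith) le_rfl hbase
    obtain ⟨x, hx, h3⟩ := L.gap (v + 2 * φ) (by linarith) (by linarith)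
    have h4 := abs_le.1 h3
    push_cast at h1
    exact hstep x hx v hv hbv (by linarith) (by linarith) (by linarith)
      (ih x hx (by linarith) (by linarith) (by linarith))

/-- **Positions and velocities over the charts of `b`** from those over the charts of `w`. -/
theorem dn_jet (L : Lad S c r sn G b o φ)
    (hf : ∀ (J : ℕ) (F : Fam m J), ∃ χ : α J F → PtT F, ∀ ω, ptr F J ω = χ (f J F ω))
    (hy : Kn ((range 0).image c) 1 1 y) {w ow : ℝ} {n p p' : ℕ → ℝ} (hw : w ∈ G) (hbw : b ≤ w)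
    (hwo : w ≤ o) (how : w ≤ ow) (how1 : ow ≤ 1) (hn : Nst r sn w φ n)
    (hp : ∀ i < r, sn i w - φ ≤ p i) (hp' : ∀ i < r, sn i b - φ ≤ p' i) {Nf : ℕ → ℕ → ℝ}
    (hNf : ∀ i < r, ∀ j : ℕ, j ≤ 1 → n i - (j : ℝ) * w ≤ Nf i j) {i : ℕ} (hi : i < r) {j : ℕ}
    (hj : j ≤ 1) :
    Few S f (vg ow) y (jetQ m c 0 r w p Nf)
      (qJet m ((range i).image c) (c i) j b (p' i) (n i - (j : ℝ) * w)) := by
  have hφ := L.φ0
  have hw1 : w ≤ 1 := by linarith [L.o1]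
  obtain ⟨k, hk⟩ := exists_nat_ge ((w - b) / φ)
  have h1 : w - b ≤ k * φ := by
    rwa [div_le_iff₀ L.φ0] at hk
  have h2 := dn_all L hf hy hw hbw hwo hn hp hNf k b L.bG le_rfl hbw h1
  obtain ⟨u₁, rd, hrd, hch⟩ := L.ch.ch b L.bG
  have hxs : Exs S (qJets m c 0 r 1 (fun _ _ => b) (fun l _ => sn l b)
      (fun l j' => n l - (j' : ℝ) * w)) :=
    exs_qjets fun l l0 l1 j' _ => exs_jet (hrd l l1) (hch.att l l0 l1)
  have h3 : Few S f (vg w) y (jetQ m c 0 r w p Nf)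
      (qJet m ((range i).image c) (c i) j b (p' i) (n i - (j : ℝ) * w)) := by
    refine Few.trans L.pos hxs h2 (Few.up (f' := f) (y' := y) L.pos
      (fun J F => ⟨fun x => x, fun _ => rfl⟩) (fun J F => vg_mono hbw hw1 J F)
      (fun J F => ⟨fun x => x, fun _ => rfl⟩) ?_)
    exact dn_one L hf hy hw hwo hn L.bG L.bG le_rfl le_rfl (by linarith) hbw
      (p := fun l => sn l b) (fun i _ => by linarith) hp' (fun _ _ _ _ => le_rfl) hi hj
  exact Few.up (f' := f) (y' := y) L.pos (fun J F => ⟨fun x => x, fun _ => rfl⟩)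
    (fun J F => vg_mono how how1 J F) (fun J F => ⟨fun x => x, fun _ => rfl⟩) h3

end rel

/-- **Positions and velocities over the charts of `b`** from those over the charts of `w`, on one
event. -/
theorem dn_ev {m : ℕ} {S : PCl m} {c : ℕ → Fin m} {k : ℕ} {sn : ℕ → ℝ → ℝ} {G : Set ℝ}
    {b o φ : ℝ} (L : Lad S c k sn G b o φ) (D : ℕ) {w ow E : ℝ} {n : ℕ → ℝ} (hw : w ∈ G)
    (hbw : b ≤ w) (hwo : w ≤ o) (how : w ≤ ow) (how1 : ow ≤ 1) (hn : Nst k sn w φ n)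
    {Nf : ℕ → ℕ → ℝ} (hNf : ∀ i < k, ∀ j : ℕ, j ≤ 1 → n i - (j : ℝ) * w ≤ Nf i j) {ε : ℝ}
    (hε : 0 < ε) :
    Bas S (fun J F A => ∀ Hb Hw H : LnT F → ℕ → MvPolynomial (Option (Fin m)) ℝ,
      LV F c k D b φ E sn A Hb → LV F c k D w φ E sn A Hw →
      (∀ ω, ∀ l < k, H (slam F ⌊w * J⌋₊ ω) l = Hb (slam F ⌊b * J⌋₊ ω) l) →
      CH (Pool.Agent.H49.Ent.cond F.p A True)
        (jet2 F c ⌊w * J⌋₊ H 0 k (fun l j => n l - (j : ℝ) * w))
        (fun ω => (jet2 F c ⌊w * J⌋₊ Hw 0 k Nf ω, (cR F A ow ω, F.W ω))) ≤ ε * J) := by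
  have hb0 := L.b0
  have hb1 : b ≤ 1 := by linarith [L.bo, L.o1]
  have hw0 : 0 ≤ w := by linarith
  have hw1 : w ≤ 1 := by linarith [L.o1]
  obtain ⟨M₀, J₀, hM₀⟩ := lv_j2 m D k Nf (E := E) hw0 hw1
  obtain ⟨ε', hε', hε1⟩ : ∃ ε' : ℝ, 0 < ε' ∧ ((k * (1 + 1) : ℕ) : ℝ) * ε' ≤ ε := by
    refine ⟨ε / (((k * (1 + 1) : ℕ) : ℝ) + 1), by positivity, ?_⟩
    rw [mul_div_assoc', div_le_iff₀ (by positivity)]
    have : (0 : ℝ) ≤ ((k * (1 + 1) : ℕ) : ℝ) := Nat.cast_nonneg _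
    nlinarith
  have hone : ∀ l < k, ∀ j : ℕ, j < 1 + 1 → Bas S (fun J F A =>
      ∀ Hb Hw H : LnT F → ℕ → MvPolynomial (Option (Fin m)) ℝ,
      LV F c k D b φ E sn A Hb → LV F c k D w φ E sn A Hw →
      (∀ ω, ∀ l < k, H (slam F ⌊w * J⌋₊ ω) l = Hb (slam F ⌊b * J⌋₊ ω) l) →
      CH (Pool.Agent.H49.Ent.cond F.p A True) (fun ω => ⌊(2 : ℝ) ^ ((n l - (j : ℝ) * w) * J) *
            ojet F (c l) j (H (slam F ⌊w * J⌋₊ ω) l) ω⌋)
        (fun ω => (jet2 F c ⌊w * J⌋₊ Hw 0 k Nf ω, (cR F A ow ω, F.W ω))) ≤ ε' * J) := by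
    intro l hl j hj
    obtain ⟨e₀, he₀, H1⟩ := few_iff.1 (dn_jet L (f := fun J F => ptr F J) (y := fun _ F => F.W)
      (fun J F => ⟨fun x => x, fun _ => rfl⟩) kn_W hw hbw hwo how how1 hn
      (p := fun l => sn l w - φ) (p' := fun l => sn l b - φ) (fun i _ => le_rfl)
      (fun i _ => le_rfl) hNf hl (j := j) (by omega)) ε' hε'
    obtain ⟨M₁, J₁, hM₁⟩ := qj_win m D j (N := n l - (j : ℝ) * w) (E := E) hb0 hb1
    refine Bas.mono (max J₀ J₁) ((H1 (max M₀ M₁)).and (pos_bas L.pos)) ?_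
    rintro J hJ F A ⟨H2, hA⟩ Hb Hw H lb lw hb
    have hcl := isLaw_cond F.isLaw hA
    have h0 := hcl.nonneg
    have q1 := hM₀ _ (le_max_left M₀ M₁) J ((le_max_left _ _).trans hJ) lw (w := w) (H := Hw)
      (fun _ _ _ => rfl) e₀ he₀.le
    obtain ⟨V, z, z', G', l1, l2⟩ := lb.lb l hl
    have q2 := hM₁ _ (le_max_right M₀ M₁) J ((le_max_right _ _).trans hJ) F _ (c l) A V z z' G' _
      (sn l b - φ) e₀ l1 (cfb_of (lb.cf l hl) l2) (Nat.floor_le_floor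
        (mul_le_mul_of_nonneg_right (by linarith) (Nat.cast_nonneg J)))
    obtain ⟨V₁, z₁, hz₁, H3⟩ := H2 _ _ q1 q2
    have hd : Det (Pool.Agent.H49.Ent.cond F.p A True) (cR F A ow) z₁ :=
      det_cR hz₁ fun ω hω => of_cond_pos hω
    have e1 : (fun ω => ⌊(2 : ℝ) ^ ((n l - (j : ℝ) * w) * J) *
            ojet F (c l) j (H (slam F ⌊w * J⌋₊ ω) l) ω⌋) = fun ω =>
        ⌊(2 : ℝ) ^ ((n l - (j : ℝ) * w) * J) *
            ojet F (c l) j (G' (z' (slam F ⌊b * J⌋₊ ω))) ω⌋ := by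
      funext ω
      rw [l2, hb ω l hl]
    rw [e1]
    refine le_trans (CH_mono_cond h0 fun ω ν hω hν e => ?_) H3
    simp only [Prod.mk.injEq] at e ⊢
    exact ⟨e.1, hd ω ν hω hν e.2.1, e.2.2⟩
  refine Bas.mono 0 ((Bas.all k fun l hl => Bas.all (1 + 1) fun j hj => hone l hl j hj).and
    (pos_bas L.pos)) ?_
  rintro J - F A ⟨H1, hA⟩ Hb Hw H lb lw hb
  have hcl := isLaw_cond F.isLaw hA
  have h0 := hcl.nonneg
  have hJ0 : (0 : ℝ) ≤ J := Nat.cast_nonneg J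
  refine (CH_mono_left h0 (X' := fun ω (x : Fin k × Fin (1 + 1)) =>
      ⌊(2 : ℝ) ^ ((n x.1 - ((x.2 : ℕ) : ℝ) * w) * J) *
        ojet F (c x.1) x.2 (H (slam F ⌊w * J⌋₊ ω) x.1) ω⌋) fun ω ν _ _ e => ?_).trans
    ((Pool.AVG5.CH_fam h0 _ _).trans ?_)
  · funext i j
    unfold jet2
    by_cases h : 0 ≤ i ∧ i < k ∧ j ≤ 1
    · rw [if_pos h, if_pos h]
      exact congrFun (Prod.ext_iff.mp e).1 (⟨i, h.2.1⟩, ⟨j, by omega⟩)
    · rw [if_neg h, if_neg h]
  have h2 : ∀ x ∈ (univ : Finset (Fin k × Fin (1 + 1))),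
      CH (Pool.Agent.H49.Ent.cond F.p A True) (fun ω =>
          ⌊(2 : ℝ) ^ ((n x.1 - ((x.2 : ℕ) : ℝ) * w) * J) *
            ojet F (c x.1) x.2 (H (slam F ⌊w * J⌋₊ ω) x.1) ω⌋)
        (fun ω => (jet2 F c ⌊w * J⌋₊ Hw 0 k Nf ω, (cR F A ow ω, F.W ω))) ≤ ε' * J :=
    fun x _ => H1 x.1 x.1.2 x.2 x.2.2 Hb Hw H lb lw hb
  refine (Finset.sum_le_sum h2).trans ?_
  rw [Finset.sum_const, Finset.card_univ, Fintype.card_prod, Fintype.card_fin, Fintype.card_fin,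
    nsmul_eq_mul, ← mul_assoc]
  exact mul_le_mul_of_nonneg_right hε1 hJ0

end Pool.NA76
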