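import Pool.Agent.H98.NA.S
import Pool.Agent.H76.NA.Vdn

/-!
# The context over the charts of `w` and the near path over the charts of `b`

`nc_stmt : NcStmt`, `nk_stmt : NkStmt`.
-/

set_option autoImplicit false

namespace Pool.NA76

open Finset Real MvPolynomial
open Pool.Agent.H49.Ent Pool.Agent.H32.Dense
open Pool.STK hiding pr2
open Pool.KA Pool.KSAT Pool.K2S Pool.PB Pool.S6C
open Pool.GEN Pool.CHT Pool.CHX Pool.ISO Pool.LA91 Pool.AVG71 Pool.AVG5 Pool.D2F2 Pool.AVG57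
open Pool.RCD Pool.AVG96 Pool.OWN68 Pool.V0F Pool.VA83 Pool.XR71 Pool.NA98 Pool.TW44

/-- Digits from other digits. -/
theorem ch_any {Ω γ : Type} [Fintype Ω] {p : Ω → ℝ} (hp : IsLaw p) (X : Ω → ℝ) (Y : Ω → γ)
    (a b : ℝ) : CH p (fun ω => ⌊(2 : ℝ) ^ b * X ω⌋) Y ≤
      CH p (fun ω => ⌊(2 : ℝ) ^ a * X ω⌋) Y + (max (b - a) 0 * Real.log 2 + Real.log 5) := by
  have h1 := CH_le_add hp.nonneg (fun ω => ⌊(2 : ℝ) ^ b * X ω⌋) (fun ω => ⌊(2 : ℝ) ^ a * X ω⌋) Y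
  have h2 := Pool.V0F.CH_dig hp (a := a) (b := b) X (fun ω => (⌊(2 : ℝ) ^ a * X ω⌋, Y ω))
    (fun ω ν _ _ e => (Prod.ext_iff.mp e).1)
  linarith

/-- **Positions and velocities** from other digits of them. -/
theorem jet2_dig {m J : ℕ} {F : Fam m J} {p : F.Ω → ℝ} (hp : IsLaw p) {c : ℕ → Fin m} {w k : ℕ}
    {H : LnT F → ℕ → MvPolynomial (Option (Fin m)) ℝ} {N N' : ℕ → ℕ → ℝ} {d : ℝ} (hd0 : 0 ≤ d)
    (hd : ∀ l < k, ∀ j ≤ 1, N' l j ≤ N l j + d) {γ : Type} (Y : F.Ω → γ)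
    (hY : ∀ l < k, ∀ j ≤ 1, Det p Y (fun ω => ⌊(2 : ℝ) ^ (N l j * J) *
      ojet F (c l) j (H (slam F w ω) l) ω⌋)) :
    CH p (jet2 F c w H 0 k N') Y ≤ 2 * k * (d * J * Real.log 2 + Real.log 5) := by
  have h0 := hp.nonneg
  have hJ0 : (0 : ℝ) ≤ J := Nat.cast_nonneg J
  refine (CH_mono_left h0 (X' := fun ω (x : Fin k × Fin 2) =>
      ⌊(2 : ℝ) ^ (N' x.1 x.2 * J) *
        ojet F (c x.1) x.2 (H (slam F w ω) x.1) ω⌋) fun ω ν _ _ e => ?_).trans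
    ((Pool.AVG5.CH_fam h0 _ _).trans ?_)
  · funext i j
    unfold jet2
    by_cases h : 0 ≤ i ∧ i < k ∧ j ≤ 1
    · rw [if_pos h, if_pos h]
      exact congrFun (Prod.ext_iff.mp e).1 (⟨i, h.2.1⟩, ⟨j, by omega⟩)
    · rw [if_neg h, if_neg h]
  have h2 : ∀ x ∈ (univ : Finset (Fin k × Fin 2)),
      CH p (fun ω => ⌊(2 : ℝ) ^ (N' x.1 x.2 * J) *
        ojet F (c x.1) x.2 (H (slam F w ω) x.1) ω⌋) Y ≤ d * J * Real.log 2 + Real.log 5 := by
    intro x _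
    have hj : ((x.2 : ℕ)) ≤ 1 := by omega
    refine (Pool.V0F.CH_dig hp (a := N x.1 x.2 * J) (b := N' x.1 x.2 * J) _ Y
      (hY x.1 x.1.2 x.2 hj)).trans ?_
    have h3 := hd x.1 x.1.2 x.2 hj
    have h4 : max (N' x.1 x.2 * J - N x.1 x.2 * J) 0 ≤ d * J := by
      refine max_le ?_ (mul_nonneg hd0 hJ0)
      rw [← sub_mul]
      exact mul_le_mul_of_nonneg_right (by linarith) hJ0
    have h5 := mul_le_mul_of_nonneg_right h4 (Real.log_nonneg (one_le_two))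
    linarith
  refine (Finset.sum_le_sum h2).trans (le_of_eq ?_)
  rw [Finset.sum_const, Finset.card_univ, Fintype.card_prod, Fintype.card_fin, Fintype.card_fin,
    nsmul_eq_mul]
  push_cast
  ring

/-- The charts of fewer places. -/
theorem lv_tk {m J : ℕ} {F : Fam m J} {c : ℕ → Fin m} {k D : ℕ} {v φ E : ℝ}
    {sn : ℕ → ℝ → ℝ} {A : F.Ω → Prop} {H : LnT F → ℕ → MvPolynomial (Option (Fin m)) ℝ}
    (h : LV F c (k + 1) D v φ E sn A H) : LV F c k D v φ E sn A H :=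
  ⟨fun l hl => h.lb l (by omega), fun l hl => h.cf l (by omega)⟩

/-- The digits of both conversions. -/
noncomputable def nd (k : ℕ) (sn : ℕ → ℝ → ℝ) (w u φ : ℝ) (l : ℕ) : ℝ :=
  sn l w + u + 20 * ((k : ℝ) - l) * φ + 20 * φ

theorem nd_ge {k : ℕ} {sn : ℕ → ℝ → ℝ} {w u φ : ℝ} (hφ : 0 < φ) {l : ℕ} (hl : l < k) :
    sn l w + u ≤ nd k sn w u φ l := by
  have h1 : (l : ℝ) + 1 ≤ k := by exact_mod_cast hl
  have h2 : 0 ≤ 20 * ((k : ℝ) - l) * φ := by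
    have : 0 ≤ (k : ℝ) - l := by linarith
    positivity
  unfold nd
  linarith

theorem nd_le {k : ℕ} {sn : ℕ → ℝ → ℝ} {w u φ : ℝ} (hφ : 0 < φ) {l : ℕ} :
    nd k sn w u φ l ≤ sn l w + u + (20 * k + 20) * φ := by
  have h2 : 20 * ((k : ℝ) - l) * φ ≤ 20 * k * φ := by
    refine mul_le_mul_of_nonneg_right ?_ hφ.le
    have : (0 : ℝ) ≤ l := Nat.cast_nonneg l
    linarith
  unfold nd
  linarith

theorem nd_nst {k : ℕ} {sn : ℕ → ℝ → ℝ} {w u φ : ℝ} (hφ : 0 < φ) (hu : 0 ≤ u)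
    (h1 : u + (20 * k + 40) * φ ≤ 1 - w) : Nst k sn w φ (nd k sn w u φ) := by
  refine ⟨fun l hl => ?_, fun l hl => ?_, fun l hl l' hl' => ?_⟩
  · have h3 : (l : ℝ) + 1 ≤ k := by exact_mod_cast hl
    have h2 : 0 ≤ 20 * ((k : ℝ) - l) * φ := by
      have : 0 ≤ (k : ℝ) - l := by linarith
      positivity
    unfold nd
    linarith
  · have := nd_le (k := k) (sn := sn) (w := w) (u := u) hφ (l := l)
    linarith
  · have h2 : (l' : ℝ) + 1 ≤ l := by exact_mod_cast hl'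
    have h3 : 20 * φ ≤ 20 * ((l : ℝ) - l') * φ := by
      have : 20 * φ * 1 ≤ 20 * φ * ((l : ℝ) - l') :=
        mul_le_mul_of_nonneg_left (by linarith) (by linarith)
      linarith
    unfold nd
    linarith

/-- The numbers of the box. -/
theorem nck_num {k : ℕ} {ε u φ' φ Λ w b o : ℝ} (hε : 0 < ε) (hu : 0 < u) (hφ0 : 0 < φ')
    (hφ : φ' ≤ φ) (h2 : φ ≤ min (1 / (20 * (k : ℝ) + 40)) (ε / (4000 * ((k : ℝ) + 2) ^ 2)) * u) (hΛ : 2 ≤ Λ)
    (hb : b + Λ * u ≤ w) (hw : w + Λ * u ≤ o) (ho : o + Λ * u ≤ 1) :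
    b ≤ w ∧ w ≤ o ∧ u + (20 * k + 40) * φ' ≤ 1 - w ∧ u + (20 * k + 23) * φ' ≤ w - b ∧
      4000 * ((k : ℝ) + 2) ^ 2 * φ ≤ ε * u := by
  have hk : (0 : ℝ) ≤ k := Nat.cast_nonneg k
  have hΛu : 2 * u ≤ Λ * u := mul_le_mul_of_nonneg_right hΛ hu.le
  have h3 : (20 * k + 40) * φ ≤ u := by
    have h4 : φ ≤ 1 / (20 * (k : ℝ) + 40) * u :=
      h2.trans (mul_le_mul_of_nonneg_right (min_le_left _ _) hu.le)
    rw [one_div, inv_mul_eq_div, le_div_iff₀ (by positivity)] at h4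
    linarith
  have h5 : (20 * k + 40) * φ' ≤ (20 * k + 40) * φ := mul_le_mul_of_nonneg_left hφ (by positivity)
  refine ⟨by linarith, by linarith, by linarith, by linarith, ?_⟩
  have h4 : φ ≤ ε / (4000 * ((k : ℝ) + 2) ^ 2) * u :=
    h2.trans (mul_le_mul_of_nonneg_right (min_le_right _ _) hu.le)
  rw [div_mul_eq_mul_div, le_div_iff₀ (by positivity)] at h4
  linarith

/-- **(NC)** -/
theorem nc_stmt : NcStmt := by
  intro k D n ε hε
  have hk : (0 : ℝ) ≤ k := Nat.cast_nonneg k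
  refine ⟨min (1 / (20 * (k : ℝ) + 40)) (ε / (4000 * ((k : ℝ) + 2) ^ 2)), 2, by positivity, ?_⟩
  intro m S c sn sp G al be h b o w u Λ φ' e' lam X hΛ K₀ e₀ ρ₀ φ x hφ hφ2 hwx hx1 E
  have hu := X.u0
  have L := X.lad.toLadR.lad
  have hφ0 := L.φ0
  obtain ⟨g1, g2, g3, g4, g5⟩ := nck_num hε hu hφ0 hφ hφ2 hΛ X.bw X.wo X.o1
  have h1 := vd_ev L D n (w := w) (v := w) (ow := x) (E := E) (n := nd k sn w u φ') X.wG g1 g2 hwx
    hx1 (nd_nst hφ0 hu.le g3) (fun i _ => by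
      have := nd_le (k := k) (sn := sn) (w := w) (u := u) hφ0 (l := i)
      linarith)
    (Nf := fun l' j' => sn l' w + u + 400 * ((k : ℝ) + 2) * φ - (j' : ℝ) * w)
    (fun i _ j _ => by
      have h2 := nd_le (k := k) (sn := sn) (w := w) (u := u) hφ0 (l := i)
      have h3 : (20 * k + 20) * φ' ≤ 400 * ((k : ℝ) + 2) * φ := by
        refine mul_le_mul (by linarith) hφ hφ0.le (by positivity)
      show nd k sn w u φ' i - (j : ℝ) * w ≤ sn i w + u + 400 * ((k : ℝ) + 2) * φ - (j : ℝ) * w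
      linarith) (ε := ε * u / 2) (by positivity)
  obtain ⟨J₁, hJ₁⟩ := exists_nat_ge (Real.log 5 / (ε * u / 2))
  refine Bas.mono J₁ (h1.and (pos_bas L.pos)) ?_
  rintro J hJ F A ⟨H1, hA⟩ Hb Hw H hN l hl j hj
  have hcl := isLaw_cond F.isLaw hA
  have h0 := hcl.nonneg
  have h2 := H1 Hb Hw H hN.vb (lv_tk hN.vw) hN.hb
  have h3 : Real.log 5 ≤ ε * u / 2 * J := by
    rw [div_le_iff₀ (by positivity)] at hJ₁
    have : ε * u / 2 * (J₁ : ℝ) ≤ ε * u / 2 * J :=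
      mul_le_mul_of_nonneg_left (by exact_mod_cast hJ) (by positivity)
    linarith
  have hJ0 : (0 : ℝ) ≤ J := Nat.cast_nonneg J
  have h4 := ch_any hcl (fun ω => ojet F (c l) j (Hw (slam F ⌊w * J⌋₊ ω) l) ω)
    (fun ω => (nrJ F c k sn w u φ H ω, (cR F A x ω, F.W ω)))
    ((nd k sn w u φ' l - (j : ℝ) * w) * J) ((sn l w + u - (j : ℝ) * w) * J)
  have h5 : max ((sn l w + u - (j : ℝ) * w) * J - (nd k sn w u φ' l - (j : ℝ) * w) * J) 0 = 0 := by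
    refine max_eq_right ?_
    rw [← sub_mul]
    have := nd_ge (sn := sn) (w := w) (u := u) hφ0 hl
    exact mul_nonpos_of_nonpos_of_nonneg (by linarith) hJ0
  rw [h5, zero_mul, zero_add] at h4
  have h6 : CH (Pool.Agent.H49.Ent.cond F.p A True)
      (fun ω => ⌊(2 : ℝ) ^ ((nd k sn w u φ' l - (j : ℝ) * w) * J) *
        ojet F (c l) j (Hw (slam F ⌊w * J⌋₊ ω) l) ω⌋)
      (fun ω => (nrJ F c k sn w u φ H ω, (cR F A x ω, F.W ω))) ≤ ε * u / 2 * J := by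
    refine le_trans (CH_mono_left h0 fun ω ν _ _ e => ?_) h2
    exact congrFun (Prod.ext_iff.mp e).1 (⟨l, hl⟩, ⟨j, by omega⟩)
  have h7 : CH (Pool.Agent.H49.Ent.cond F.p A True) (tj F c w Hw l j (sn l w + u - j * w))
      (fun ω => (nrJ F c k sn w u φ H ω, (cR F A x ω, F.W ω))) =
      CH (Pool.Agent.H49.Ent.cond F.p A True)
      (fun ω => ⌊(2 : ℝ) ^ ((sn l w + u - (j : ℝ) * w) * J) *
        ojet F (c l) j (Hw (slam F ⌊w * J⌋₊ ω) l) ω⌋)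
      (fun ω => (nrJ F c k sn w u φ H ω, (cR F A x ω, F.W ω))) := rfl
  rw [h7]
  linarith

/-- **(NK)** -/
theorem nk_stmt : NkStmt := by
  intro k D ε hε
  have hk : (0 : ℝ) ≤ k := Nat.cast_nonneg k
  refine ⟨min (1 / (20 * (k : ℝ) + 40)) (ε / (4000 * ((k : ℝ) + 2) ^ 2)), 2, by positivity, ?_⟩
  intro m S c sn sp G al be h b o w u Λ φ' e' lam X hΛ K₀ e₀ ρ₀ φ x hφ hφ2 hwx hx1 E
  have hu := X.u0
  have L := X.lad.toLadR.lad
  have hφ0 := L.φ0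
  obtain ⟨g1, g2, g3, g4, g5⟩ := nck_num hε hu hφ0 hφ hφ2 hΛ X.bw X.wo X.o1
  have h1 := dn_ev L D (w := w) (ow := x) (E := E) (n := nd k sn w u φ') X.wG g1 g2 hwx
    hx1 (nd_nst hφ0 hu.le g3) (Nf := fun l j => nd k sn w u φ' l - (j : ℝ) * w)
    (fun _ _ _ _ => le_rfl) (ε := ε * u / 4) (by positivity)
  obtain ⟨J₁, hJ₁⟩ := exists_nat_ge (4 * k * Real.log 5 / (ε * u / 4))
  refine Bas.mono J₁ (h1.and (pos_bas L.pos)) ?_
  rintro J hJ F A ⟨H1, hA⟩ Hb Hw H hN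
  have hcl := isLaw_cond F.isLaw hA
  have h0 := hcl.nonneg
  have hJ0 : (0 : ℝ) ≤ J := Nat.cast_nonneg J
  have h2 := H1 Hb Hw H hN.vb (lv_tk hN.vw) hN.hb
  have h3 : 4 * k * Real.log 5 ≤ ε * u / 4 * J := by
    rw [div_le_iff₀ (by positivity)] at hJ₁
    have : ε * u / 4 * (J₁ : ℝ) ≤ ε * u / 4 * J :=
      mul_le_mul_of_nonneg_left (by exact_mod_cast hJ) (by positivity)
    linarith
  obtain ⟨p, hp⟩ : ∃ p, p = Pool.Agent.H49.Ent.cond F.p A True := ⟨_, rfl⟩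
  obtain ⟨Y, hY⟩ : ∃ Y : F.Ω → _, Y = fun ω => ((fun (l : Fin k) (j : Fin 2) =>
      tj F c w Hw l j (sn l w + u - (j : ℕ) * w) ω), (cR F A x ω, F.W ω)) := ⟨_, rfl⟩
  rw [← hp] at h2 hcl h0 ⊢
  rw [← hY]
  -- the digits over the charts of `w`
  have a1 : CH p (jet2 F c ⌊w * J⌋₊ Hw 0 k (fun l j => nd k sn w u φ' l - (j : ℝ) * w)) Y ≤
      2 * k * ((20 * k + 20) * φ' * J * Real.log 2 + Real.log 5) := by
    refine jet2_dig hcl (N := fun l j => sn l w + u - (j : ℝ) * w) (by positivity)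
      (fun l hl j hj => ?_) Y (fun l hl j hj => ?_)
    · have := nd_le (k := k) (sn := sn) (w := w) (u := u) hφ0 (l := l)
      show nd k sn w u φ' l - (j : ℝ) * w ≤ sn l w + u - (j : ℝ) * w + (20 * k + 20) * φ'
      linarith
    · intro ω ν _ _ e
      rw [hY] at e
      exact congrFun (congrFun (Prod.ext_iff.mp e).1 ⟨l, hl⟩) ⟨j, by omega⟩
  -- the near path
  have hφp : 0 < φ := lt_of_lt_of_le hφ0 hφ
  have a2 : CH p (nrJ F c k sn w u φ H) (fun ω => (jet2 F c ⌊w * J⌋₊ H 0 k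
      (fun l j => nd k sn w u φ' l - (j : ℝ) * w) ω, Y ω)) ≤
      2 * k * (400 * ((k : ℝ) + 2) * φ * J * Real.log 2 + Real.log 5) := by
    refine jet2_dig hcl (N := fun l j => nd k sn w u φ' l - (j : ℝ) * w) (by positivity)
      (fun l hl j hj => ?_) _ (fun l hl j hj => ?_)
    · have := nd_ge (sn := sn) (w := w) (u := u) hφ0 hl
      show sn l w + u + 400 * ((k : ℝ) + 2) * φ - (j : ℝ) * w ≤
        nd k sn w u φ' l - (j : ℝ) * w + 400 * ((k : ℝ) + 2) * φ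
      linarith
    · intro ω ν _ _ e
      have e1 : jet2 F c ⌊w * J⌋₊ H 0 k (fun l j => nd k sn w u φ' l - (j : ℝ) * w) ω l j =
          jet2 F c ⌊w * J⌋₊ H 0 k (fun l j => nd k sn w u φ' l - (j : ℝ) * w) ν l j :=
        congrFun (congrFun (Prod.ext_iff.mp e).1 l) j
      unfold jet2 at e1
      rw [if_pos ⟨Nat.zero_le _, hl, hj⟩, if_pos ⟨Nat.zero_le _, hl, hj⟩] at e1
      exact e1
  have b1 := CH_le_add h0 (nrJ F c k sn w u φ H) (jet2 F c ⌊w * J⌋₊ H 0 k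
      (fun l j => nd k sn w u φ' l - (j : ℝ) * w)) Y
  have b2 := CH_le_add h0 (jet2 F c ⌊w * J⌋₊ H 0 k
      (fun l j => nd k sn w u φ' l - (j : ℝ) * w)) (jet2 F c ⌊w * J⌋₊ Hw 0 k
      (fun l j => nd k sn w u φ' l - (j : ℝ) * w)) Y
  have b3 : CH p (jet2 F c ⌊w * J⌋₊ H 0 k (fun l j => nd k sn w u φ' l - (j : ℝ) * w))
      (fun ω => (jet2 F c ⌊w * J⌋₊ Hw 0 k (fun l j => nd k sn w u φ' l - (j : ℝ) * w) ω, Y ω)) ≤
      ε * u / 4 * J := by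
    refine le_trans (CH_mono_cond h0 fun ω ν _ _ e => ?_) h2
    rw [hY] at e
    simp only [Prod.mk.injEq] at e ⊢
    exact ⟨e.1, e.2.2.1, e.2.2.2⟩
  -- the sum
  have hl2 : 0 ≤ Real.log 2 ∧ Real.log 2 ≤ 1 := ⟨Real.log_nonneg one_le_two, by
    have := Real.log_two_lt_d9
    linarith⟩
  have c1 : 2 * k * ((20 * k + 20) * φ' * J * Real.log 2) +
      2 * k * (400 * ((k : ℝ) + 2) * φ * J * Real.log 2) ≤ ε * u / 2 * J := by
    have d1 : 2 * k * ((20 * k + 20) * φ') + 2 * k * (400 * ((k : ℝ) + 2) * φ) ≤ ε * u / 2 := by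
      have d2 : (20 * k + 20) * φ' ≤ 20 * (k + 2) * φ :=
        mul_le_mul (by linarith) hφ hφ0.le (by positivity)
      have d3 : 2 * (k : ℝ) * ((20 * k + 20) * φ') ≤ 2 * k * (20 * (k + 2) * φ) :=
        mul_le_mul_of_nonneg_left d2 (by positivity)
      have d4 : 2 * (k : ℝ) * (420 * (k + 2) * φ) ≤ 2 * (k + 2) * (420 * (k + 2) * φ) :=
        mul_le_mul_of_nonneg_right (by linarith) (by positivity)
      have d5 : 2 * ((k : ℝ) + 2) * (420 * (k + 2) * φ) = 840 * (k + 2) ^ 2 * φ := by ring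
      have d6 : 0 ≤ ((k : ℝ) + 2) ^ 2 * φ := by positivity
      linarith
    have d2 : 0 ≤ (J : ℝ) * Real.log 2 := mul_nonneg hJ0 hl2.1
    have d3 := mul_le_mul_of_nonneg_right d1 d2
    have d4 : ε * u / 2 * (J * Real.log 2) ≤ ε * u / 2 * J := by
      refine mul_le_mul_of_nonneg_left ?_ (by positivity)
      have := mul_le_mul_of_nonneg_left hl2.2 hJ0
      linarith
    linarith
  have c2 : 2 * k * ((20 * k + 20) * φ' * J * Real.log 2 + Real.log 5) +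
      2 * k * (400 * ((k : ℝ) + 2) * φ * J * Real.log 2 + Real.log 5) =
      2 * k * ((20 * k + 20) * φ' * J * Real.log 2) +
      2 * k * (400 * ((k : ℝ) + 2) * φ * J * Real.log 2) + 4 * k * Real.log 5 := by ring
  linarith

end Pool.NA76
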